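import Pool.Agent.P.MP_cd1425_an.Reit3
import Pool.Agent.P.MP_cd1425_an.Cex4

/-!
Direct sums of recurrent operators: the answer for all four properties.
Yes for reiterative and uniform recurrence, no for frequent and `U`-frequent recurrence.
-/

set_option autoImplicit false

open Pool.Agent.P.MP_cd1425_an

universe u

theorem Pool.Agent.Results.MP_cd1425_an.AllFour.result (𝕜 : Type) [RCLike 𝕜] :
    (∀ (X : Type u) [AddCommGroup X] [Module 𝕜 X] [UniformSpace X] [IsUniformAddGroup X],
      IsFrechet 𝕜 X → ∀ (T : X →L[𝕜] X) (n : ℕ), 2 ≤ n →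
        (ReiterativelyRecurrent T → ReiterativelyRecurrent (directSum n T)) ∧
        (UniformlyRecurrent T → UniformlyRecurrent (directSum n T))) ∧
    ∃ (X : Type) (_ : AddCommGroup X) (_ : Module 𝕜 X) (_ : UniformSpace X)
      (_ : IsUniformAddGroup X), IsFrechet 𝕜 X ∧ ∃ T : X →L[𝕜] X,
        UFrequentlyRecurrent T ∧ FrequentlyRecurrent T ∧ ∀ n : ℕ, 2 ≤ n →
          ¬ UFrequentlyRecurrent (directSum n T) ∧ ¬ FrequentlyRecurrent (directSum n T) := by
  refine ⟨fun X _ _ _ _ hX T n _ => ⟨fun h => reiterativelyRecurrent_directSum hX T.continuous h n,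
    fun h => uniformlyRecurrent_directSum hX T.continuous h n⟩, XX 𝕜, inferInstance,
    inferInstance, inferInstance, inferInstance, ⟨inferInstance, inferInstance,
      fun _ => normSeminorm 𝕜 (XX 𝕜), ?_⟩, TT 𝕜, frequentlyRecurrent_TT.uFrequentlyRecurrent,
    frequentlyRecurrent_TT, fun _ hn => ⟨not_uFrequentlyRecurrent_directSum hn,
      fun h => not_uFrequentlyRecurrent_directSum hn h.uFrequentlyRecurrent⟩⟩
  refine (norm_withSeminorms 𝕜 (XX 𝕜)).congr ?_ ?_
  · intro i
    exact ⟨{0}, 1, by simp⟩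
  · intro i
    exact ⟨{0}, 1, by simp⟩
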