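import Pool.Agent.P.MP_cd1425_an.En.Ent

/-!
Direct sums of frequently recurrent operators on the space of entire functions: the property can
hold for the sums with at most `N` terms and fail for all longer sums.
-/

set_option autoImplicit false

open Pool.Agent.P.MP_cd1425_an

theorem Pool.Agent.Results.MP_cd1425_an.EntireSharp.result (N : ℕ) (hN : 1 ≤ N) :
    ∃ _ : IsUniformAddGroup Entire, IsFrechet ℂ Entire ∧ ∃ T : Entire →L[ℂ] Entire,
      FrequentlyRecurrent T ∧ UFrequentlyRecurrent T ∧ ∀ n : ℕ,
        (FrequentlyRecurrent (directSum n T) ↔ n ≤ N) ∧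
          (UFrequentlyRecurrent (directSum n T) ↔ n ≤ N) := by
  have := En.uniformAddGroup_entire
  obtain ⟨T, h1, h2⟩ := En.sharp_entire N
  have h : FrequentlyRecurrent T := fun x => map_mem_closure (continuous_apply (0 : Fin 1))
    (h1 1 hN fun _ => x) fun _ hy => recVectors_map (continuous_apply _) (fun _ => rfl) hy
  exact ⟨this, En.frechet_entire, T, h, h.uFrequentlyRecurrent, fun n =>
    ⟨⟨fun e => not_lt.1 fun c => h2 n c e.uFrequentlyRecurrent, h1 n⟩,
      fun e => not_lt.1 fun c => h2 n c e, fun c => (h1 n c).uFrequentlyRecurrent⟩⟩
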