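import Pool.Agent.P.MP_cd1425_an.Qr.Main

/-! Direct sums of recurrent operators on quasi-reflexive Banach spaces. -/

set_option autoImplicit false

open Pool.Agent.P.MP_cd1425_an

universe u

theorem Pool.Agent.Results.MP_cd1425_an.QuasiReflexive.result (𝕜 : Type) [RCLike 𝕜] (X : Type u)
    [NormedAddCommGroup X] [NormedSpace 𝕜 X] [CompleteSpace X]
    (hX : ∃ s : Finset (StrongDual 𝕜 (StrongDual 𝕜 X)), ∀ ξ : StrongDual 𝕜 (StrongDual 𝕜 X),
      ∃ x : X, ξ - NormedSpace.inclusionInDoubleDual 𝕜 X x ∈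
        Submodule.span 𝕜 (s : Set (StrongDual 𝕜 (StrongDual 𝕜 X))))
    (T : X →L[𝕜] X) (hT : UFrequentlyRecurrent T) (n : ℕ) :
    FrequentlyRecurrent (directSum n T) :=
  hX.elim fun _ h => Qr.quasi h T hT n
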