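import Pool.Agent.P.MP_cd1425_an.Cl.C0
import Pool.Agent.P.MP_cd1425_an.Cl.L1b
import Pool.Agent.P.MP_cd1425_an.Cl.James
import Pool.Agent.P.MP_cd1425_an.Cl.Pos

/-!
Direct sums of frequently and `U`-frequently recurrent operators: among the Banach spaces with an
unconditional basis, the answer is positive exactly on the reflexive ones.
-/

set_option autoImplicit false

open Pool.Agent.P.MP_cd1425_an Pool.Agent.P.MP_cd1425_an.Cl

universe u

theorem Pool.Agent.Results.MP_cd1425_an.ReflexiveIff.result (𝕜 : Type) [RCLike 𝕜] (X : Type u)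
    [NormedAddCommGroup X] [NormedSpace 𝕜 X] [CompleteSpace X] (ι : Type) [Countable ι]
    (b : UnconditionalSchauderBasis ι 𝕜 X) (n : ℕ) (hn : 2 ≤ n) :
    List.TFAE [Function.Surjective (NormedSpace.inclusionInDoubleDual 𝕜 X),
      ∀ T : X →L[𝕜] X, FrequentlyRecurrent T → FrequentlyRecurrent (directSum n T),
      ∀ T : X →L[𝕜] X, UFrequentlyRecurrent T → UFrequentlyRecurrent (directSum n T),
      ∀ T : X →L[𝕜] X, UFrequentlyRecurrent T → FrequentlyRecurrent (directSum n T),
      ∀ T : X →L[𝕜] X, FrequentlyRecurrent T → UFrequentlyRecurrent (directSum n T)] := by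
  have : TopologicalSpace.SeparableSpace X := by
    rw [← TopologicalSpace.isSeparable_univ_iff]
    refine (Set.countable_range b).isSeparable.span (R := 𝕜).closure.mono fun x _ => ?_
    exact mem_closure_of_tendsto (b.expansion x) (.of_forall fun s =>
      Submodule.sum_mem _ fun i _ => Submodule.smul_mem _ _ (Submodule.subset_span ⟨i, rfl⟩))
  tfae_have 1 → 4 := fun h T hT => positive b.coord (fun x y e =>
    (b.expansion x).unique (by simpa only [e] using b.expansion y)) h T hT n
  tfae_have 4 → 2 := fun h T hT => h T hT.uFrequentlyRecurrent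
  tfae_have 4 → 3 := fun h T hT => (h T hT).uFrequentlyRecurrent
  tfae_have 2 → 5 := fun h T hT => (h T hT).uFrequentlyRecurrent
  tfae_have 3 → 5 := fun h T hT => h T hT.uFrequentlyRecurrent
  tfae_have 5 → 1 := fun h => by
    by_contra hX
    obtain ⟨T, h1, h2⟩ : Bad 𝕜 X :=
      (james b hX I1 I0).elim (Bad.of_compl · bad_l1) (Bad.of_compl · bad_c0)
    exact h2 n hn (h T h1)
  tfae_finish
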